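import Pool.Agent.U469.RT.Stm

/-!
Project RT, package TOPSMB: the largest elements and the sum over all sets `S`.
-/

set_option autoImplicit false

namespace Pool.Agent.U606.RT.TOPSMB

open Pool.Agent.U469.RT Finset

theorem t_TOP : S_TOP := by
  intro ι _ x N I
  induction N with
  | zero => exact ⟨∅, by simp, by simp, Or.inr (by simp), by simp⟩
  | succ N ih =>
    obtain ⟨Top, hsub, hcard, hor, hx⟩ := ih
    by_cases hT : Top = I
    · exact ⟨Top, hsub, by omega, Or.inl hT, hx⟩
    have hN : Top.card = N := by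
      rcases hor with h | h
      · exact absurd h hT
      · exact h
    have hne : (I \ Top).Nonempty := by
      rw [Finset.sdiff_nonempty]
      intro h
      exact hT (Finset.Subset.antisymm hsub h)
    obtain ⟨a, ha, hmax⟩ := Finset.exists_max_image (I \ Top) x hne
    rw [Finset.mem_sdiff] at ha
    refine ⟨insert a Top, ?_, ?_, Or.inr ?_, ?_⟩
    · exact Finset.insert_subset ha.1 hsub
    · rw [Finset.card_insert_of_notMem ha.2]; omega
    · rw [Finset.card_insert_of_notMem ha.2]; omega
    · intro i hi t ht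
      rw [Finset.mem_sdiff, Finset.mem_insert, not_or] at hi
      have hi' : i ∈ I \ Top := Finset.mem_sdiff.2 ⟨hi.1, hi.2.2⟩
      rcases Finset.mem_insert.1 ht with rfl | ht
      · exact hmax i hi'
      · exact hx i hi' t ht

theorem t_SMB : S_SMB := by
  intro ι _ y m N K I Top hy hsub hcard hK
  set z : ι → ℝ := fun i => if i ∉ Top then y i else 1 with hz
  have hz0 : ∀ i, 0 ≤ z i := by
    intro i
    simp only [hz]
    split_ifs
    · exact zero_le_one
    · exact hy i
  have h1 : ∀ S : Finset ι, ∏ i ∈ S \ Top, y i = ∏ i ∈ S, z i := by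
    intro S
    rw [Finset.sdiff_eq_filter, Finset.prod_filter]
  have h2 : ∑ S ∈ powersetCard m I, ∏ i ∈ S \ Top, y i ≤ ∑ S ∈ I.powerset, ∏ i ∈ S, z i := by
    rw [Finset.sum_congr rfl (fun S _ => h1 S)]
    refine Finset.sum_le_sum_of_subset_of_nonneg ?_ ?_
    · intro S hS
      exact Finset.mem_powerset.2 (Finset.mem_powersetCard.1 hS).1
    · intro S _ _
      exact Finset.prod_nonneg (fun i _ => hz0 i)
  refine h2.trans ?_
  rw [← Finset.prod_one_add, ← Finset.prod_sdiff hsub]
  have h3 : ∏ i ∈ Top, (1 + z i) ≤ 2 ^ N := by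
    have : ∏ i ∈ Top, (1 + z i) = ∏ _i ∈ Top, (2 : ℝ) := by
      refine Finset.prod_congr rfl (fun i hi => ?_)
      simp only [hz, hi, not_true_eq_false, if_false]
      norm_num
    rw [this, Finset.prod_const]
    exact pow_le_pow_right₀ (by norm_num) hcard
  have h4 : ∏ i ∈ I \ Top, (1 + z i) ≤ Real.exp K := by
    calc ∏ i ∈ I \ Top, (1 + z i) ≤ ∏ i ∈ I \ Top, Real.exp (y i) := by
          refine Finset.prod_le_prod (fun i _ => by have := hz0 i; linarith) (fun i hi => ?_)
          rw [Finset.mem_sdiff] at hi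
          simp only [hz, hi.2, not_false_eq_true, if_true]
          have := Real.add_one_le_exp (y i)
          linarith
      _ = Real.exp (∑ i ∈ I \ Top, y i) := (Real.exp_sum _ _).symm
      _ ≤ Real.exp K := Real.exp_le_exp.2 hK
  have h5 : 0 ≤ ∏ i ∈ Top, (1 + z i) :=
    Finset.prod_nonneg (fun i _ => by have := hz0 i; linarith)
  calc (∏ i ∈ I \ Top, (1 + z i)) * ∏ i ∈ Top, (1 + z i)
      ≤ Real.exp K * 2 ^ N := mul_le_mul h4 h3 h5 (Real.exp_pos K).le
    _ = 2 ^ N * Real.exp K := mul_comm _ _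

end Pool.Agent.U606.RT.TOPSMB
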